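import Mathlib

set_option autoImplicit false

namespace Pool.Agent.Results.MP_af7c6a_co.Superlinear

open Filter

/-- `N` is a norm on `ℝ^d`. -/
structure IsNorm {d : ℕ} (N : (Fin d → ℝ) → ℝ) : Prop where
  eq_zero : ∀ x, N x = 0 → x = 0
  smul : ∀ (a : ℝ) (x : Fin d → ℝ), N (a • x) = |a| * N x
  add_le : ∀ x y, N (x + y) ≤ N x + N y

/-- Distance from a real number to the nearest integer. -/
noncomputable def distInt (t : ℝ) : ℝ := |t - (round t : ℝ)|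

/-- The largest `n` for which there are `n` points in a closed `N`-ball of radius `X` all of whose
pairwise `N`-distances are at distance at least `δ` from the integers. -/
noncomputable def maxAvoid {d : ℕ} (N : (Fin d → ℝ) → ℝ) (X δ : ℝ) : ℕ :=
  sSup {n : ℕ | ∃ (c : Fin d → ℝ) (p : Fin n → (Fin d → ℝ)),
    (∀ i, N (p i - c) ≤ X) ∧ ∀ i j, i ≠ j → δ ≤ distInt (N (p i - p j))}

/-- binary digits of `j` read in base `B` -/
def dig (B : ℤ) : ℕ → ℕ → ℤ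
  | 0, _ => 0
  | m + 1, j => B * dig B m (j / 2) + ((j % 2 : ℕ) : ℤ)

lemma dig_bound (B : ℤ) (hB : 1 ≤ B) (m : ℕ) : ∀ j, 0 ≤ dig B m j ∧ (B - 1) * dig B m j ≤ B ^ m - 1 := by
  induction m with
  | zero => intro j; simp [dig]
  | succ m ih =>
    intro j
    obtain ⟨h1, h2⟩ := ih (j / 2)
    have h3 : ((j % 2 : ℕ) : ℤ) ≤ 1 := by omega
    have h4 : (0 : ℤ) ≤ ((j % 2 : ℕ) : ℤ) := by omega
    simp only [dig]
    constructor
    · positivity
    · rw [pow_succ]; nlinarith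

lemma dig_inv (m : ℕ) : ∀ j j' : ℕ, j < 2 ^ m → j' < 2 ^ m → j ≠ j' →
    1 ≤ |dig 9 m j - dig 9 m j'| ∧ 1 ≤ |dig 3 m j - dig 3 m j'| ∧
    7 * (2 * |dig 3 m j - dig 3 m j'| + 1) ^ 2 ≤ 9 * (8 * |dig 9 m j - dig 9 m j'| - 1) ∧
    8 * |dig 9 m j - dig 9 m j'| + 1 ≤ 9 * (2 * |dig 3 m j - dig 3 m j'| - 1) ^ 2 := by
  induction m with
  | zero => intro j j' h1 h2 h3; omega
  | succ m ih =>
    intro j j' h1 h2 h3
    simp only [dig]
    by_cases h : j / 2 = j' / 2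
    · rw [h]
      have e : ∀ t : ℤ, |t + ((j % 2 : ℕ) : ℤ) - (t + ((j' % 2 : ℕ) : ℤ))| = 1 := by
        intro t
        rw [abs_eq (by norm_num)]
        omega
      rw [e, e]; norm_num
    · obtain ⟨a1, a2, a3, a4⟩ := ih (j / 2) (j' / 2) (by omega) (by omega) h
      have key : ∀ (B x y : ℤ), 0 ≤ B →
          B * |x - y| - 1 ≤ |B * x + ((j % 2 : ℕ) : ℤ) - (B * y + ((j' % 2 : ℕ) : ℤ))| ∧
          |B * x + ((j % 2 : ℕ) : ℤ) - (B * y + ((j' % 2 : ℕ) : ℤ))| ≤ B * |x - y| + 1 := by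
        intro B x y hB
        have e : B * |x - y| = |B * x - B * y| := by
          rw [← mul_sub, abs_mul, abs_of_nonneg hB]
        rw [e]
        generalize B * x = s
        generalize B * y = t
        constructor
        · rcases abs_cases (s - t) with h | h <;>
            rcases abs_cases (s + ((j % 2 : ℕ) : ℤ) - (t + ((j' % 2 : ℕ) : ℤ))) with h' | h' <;> omega
        · rcases abs_cases (s - t) with h | h <;>
            rcases abs_cases (s + ((j % 2 : ℕ) : ℤ) - (t + ((j' % 2 : ℕ) : ℤ))) with h' | h' <;> omega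
      obtain ⟨b1, b2⟩ := key 9 (dig 9 m (j / 2)) (dig 9 m (j' / 2)) (by norm_num)
      obtain ⟨b3, b4⟩ := key 3 (dig 3 m (j / 2)) (dig 3 m (j' / 2)) (by norm_num)
      generalize |9 * dig 9 m (j / 2) + ((j % 2 : ℕ) : ℤ) - (9 * dig 9 m (j' / 2) + ((j' % 2 : ℕ) : ℤ))| = A' at *
      generalize |3 * dig 3 m (j / 2) + ((j % 2 : ℕ) : ℤ) - (3 * dig 3 m (j' / 2) + ((j' % 2 : ℕ) : ℤ))| = b' at *
      generalize |dig 9 m (j / 2) - dig 9 m (j' / 2)| = A at *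
      generalize |dig 3 m (j / 2) - dig 3 m (j' / 2)| = b at *
      refine ⟨by omega, by omega, by nlinarith, by nlinarith⟩

lemma dig_cmp (m j j' : ℕ) (h1 : j < 2 ^ m) (h2 : j' < 2 ^ m) :
    2 * |(dig 9 m j : ℝ) - dig 9 m j'| ≤ 9 * |(dig 3 m j : ℝ) - dig 3 m j'| ^ 2 ∧
    |(dig 3 m j : ℝ) - dig 3 m j'| ^ 2 ≤ 3 * |(dig 9 m j : ℝ) - dig 9 m j'| := by
  have : 2 * |dig 9 m j - dig 9 m j'| ≤ 9 * |dig 3 m j - dig 3 m j'| ^ 2 ∧
    |dig 3 m j - dig 3 m j'| ^ 2 ≤ 3 * |dig 9 m j - dig 9 m j'| := by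
    by_cases h : j = j'
    · simp [h]
    · obtain ⟨a1, a2, a3, a4⟩ := dig_inv m j j' h1 h2 h
      constructor <;> nlinarith
  exact_mod_cast this

noncomputable def s1 (x : Fin 8 → ℝ) : ℝ := |x 0| + |x 1| + |x 2| + |x 3|
noncomputable def s2 (x : Fin 8 → ℝ) : ℝ := |x 4| + |x 5| + |x 6| + |x 7|
noncomputable def NN (x : Fin 8 → ℝ) : ℝ := Real.sqrt (s1 x ^ 2 + s2 x ^ 2)

lemma s1_nonneg (x : Fin 8 → ℝ) : 0 ≤ s1 x := by unfold s1; positivity
lemma s2_nonneg (x : Fin 8 → ℝ) : 0 ≤ s2 x := by unfold s2; positivity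

lemma s1_le (x : Fin 8 → ℝ) : s1 x ≤ NN x := Real.le_sqrt_of_sq_le (by nlinarith [sq_nonneg (s2 x)])
lemma s2_le (x : Fin 8 → ℝ) : s2 x ≤ NN x := Real.le_sqrt_of_sq_le (by nlinarith [sq_nonneg (s1 x)])
lemma NN_le (x : Fin 8 → ℝ) : NN x ≤ s1 x + s2 x := by
  have h1 := s1_nonneg x
  have h2 := s2_nonneg x
  exact Real.sqrt_le_iff.mpr ⟨by positivity, by nlinarith [mul_nonneg h1 h2]⟩

lemma norm_le_NN (x : Fin 8 → ℝ) : ‖x‖ ≤ NN x := by
  have h1 := s1_le x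
  have h2 := s2_le x
  have h0 : 0 ≤ NN x := Real.sqrt_nonneg _
  rw [pi_norm_le_iff_of_nonneg h0]
  unfold s1 at h1
  unfold s2 at h2
  have := abs_nonneg (x 0)
  have := abs_nonneg (x 1)
  have := abs_nonneg (x 2)
  have := abs_nonneg (x 3)
  have := abs_nonneg (x 4)
  have := abs_nonneg (x 5)
  have := abs_nonneg (x 6)
  have := abs_nonneg (x 7)
  intro i
  rw [Real.norm_eq_abs]
  fin_cases i <;> simp only [Fin.zero_eta, Fin.mk_one, Fin.reduceFinMk] <;> linarith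

lemma NN_le_norm (x : Fin 8 → ℝ) : NN x ≤ 8 * ‖x‖ := by
  have h := NN_le x
  unfold s1 s2 at h
  have k : ∀ i, |x i| ≤ ‖x‖ := fun i => norm_le_pi_norm x i
  linarith [k 0, k 1, k 2, k 3, k 4, k 5, k 6, k 7]

lemma isNorm_NN : IsNorm NN := by
  refine ⟨fun x hx => ?_, fun a x => ?_, fun x y => ?_⟩
  · have := norm_le_NN x
    rw [hx] at this
    exact norm_le_zero_iff.mp this
  · have e1 : s1 (a • x) = |a| * s1 x := by simp only [s1, Pi.smul_apply, smul_eq_mul, abs_mul]; ring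
    have e2 : s2 (a • x) = |a| * s2 x := by simp only [s2, Pi.smul_apply, smul_eq_mul, abs_mul]; ring
    unfold NN
    rw [e1, e2, mul_pow, mul_pow, ← mul_add, Real.sqrt_mul (sq_nonneg _),
      Real.sqrt_sq (abs_nonneg _)]
  · have e1 : s1 (x + y) ≤ s1 x + s1 y := by
      simp only [s1, Pi.add_apply]
      linarith [abs_add_le (x 0) (y 0), abs_add_le (x 1) (y 1), abs_add_le (x 2) (y 2),
        abs_add_le (x 3) (y 3)]
    have e2 : s2 (x + y) ≤ s2 x + s2 y := by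
      simp only [s2, Pi.add_apply]
      linarith [abs_add_le (x 4) (y 4), abs_add_le (x 5) (y 5), abs_add_le (x 6) (y 6),
        abs_add_le (x 7) (y 7)]
    have hx : NN x ^ 2 = s1 x ^ 2 + s2 x ^ 2 := Real.sq_sqrt (by positivity)
    have hy : NN y ^ 2 = s1 y ^ 2 + s2 y ^ 2 := Real.sq_sqrt (by positivity)
    have hx0 : 0 ≤ NN x := Real.sqrt_nonneg _
    have hy0 : 0 ≤ NN y := Real.sqrt_nonneg _
    have hcs : s1 x * s1 y + s2 x * s2 y ≤ NN x * NN y := by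
      refine le_of_sq_le_sq ?_ (mul_nonneg hx0 hy0)
      rw [mul_pow, hx, hy]
      nlinarith [sq_nonneg (s1 x * s2 y - s2 x * s1 y)]
    refine Real.sqrt_le_iff.mpr ⟨by positivity, ?_⟩
    have f1 := pow_le_pow_left₀ (s1_nonneg _) e1 2
    have f2 := pow_le_pow_left₀ (s2_nonneg _) e2 2
    nlinarith

lemma bdd (X δ : ℝ) (hδ : 0 < δ) :
    BddAbove {n : ℕ | ∃ (c : Fin 8 → ℝ) (p : Fin n → (Fin 8 → ℝ)),
      (∀ i, NN (p i - c) ≤ X) ∧ ∀ i j, i ≠ j → δ ≤ distInt (NN (p i - p j))} := by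
  classical
  have htb := (isCompact_closedBall (0 : Fin 8 → ℝ) X).totallyBounded
  obtain ⟨t, ht, hcov⟩ := Metric.totallyBounded_iff.mp htb (δ / 16) (by positivity)
  refine ⟨ht.toFinset.card, ?_⟩
  rintro n ⟨c, p, hp, hsep⟩
  have hex : ∀ i, ∃ y ∈ ht.toFinset, p i - c ∈ Metric.ball y (δ / 16) := by
    intro i
    have : p i - c ∈ Metric.closedBall (0 : Fin 8 → ℝ) X := by
      rw [mem_closedBall_zero_iff]
      exact (norm_le_NN _).trans (hp i)
    have := hcov this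
    simp only [Set.mem_iUnion] at this
    obtain ⟨y, hy, hy'⟩ := this
    exact ⟨y, ht.mem_toFinset.mpr hy, hy'⟩
  choose f hf hf' using hex
  have hinj : Function.Injective f := by
    intro i j hij
    by_contra hne
    have h1 := hsep i j hne
    have h2 : distInt (NN (p i - p j)) ≤ NN (p i - p j) := by
      have := round_le (NN (p i - p j)) 0
      simpa [distInt, abs_of_nonneg (show 0 ≤ NN (p i - p j) from Real.sqrt_nonneg _)] using this
    have h3 : dist (p i - c) (p j - c) < δ / 16 + δ / 16 := by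
      have a := hf' i
      have b := hf' j
      rw [Metric.mem_ball] at a b
      rw [← hij] at b
      calc dist (p i - c) (p j - c) ≤ dist (p i - c) (f i) + dist (p j - c) (f i) :=
            dist_triangle_right _ _ _
        _ < _ := add_lt_add a b
    rw [dist_eq_norm, sub_sub_sub_cancel_right] at h3
    have h4 := NN_le_norm (p i - p j)
    linarith
  have := Finset.card_le_card_of_injOn (s := Finset.univ) (t := ht.toFinset) f (fun i _ => hf i)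
    hinj.injOn
  simpa using this

/-- the points -/
noncomputable def pt (m : ℕ) (j : Fin 4 → Fin (2 ^ m)) : Fin 8 → ℝ :=
  ![dig 9 m (j 0), dig 9 m (j 1), dig 9 m (j 2), dig 9 m (j 3),
    dig 3 m (j 0) / 4, dig 3 m (j 1) / 4, dig 3 m (j 2) / 4, dig 3 m (j 3) / 4]

lemma pt_le (m : ℕ) (j : Fin 4 → Fin (2 ^ m)) : NN (pt m j - 0) ≤ 9 ^ m := by
  rw [sub_zero]
  refine (NN_le _).trans ?_
  have h9 : ∀ i : ℕ, |(dig 9 m i : ℝ)| ≤ 9 ^ m / 8 := by
    intro i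
    obtain ⟨a, b⟩ := dig_bound 9 (by norm_num) m i
    have a' : (0 : ℝ) ≤ dig 9 m i := by exact_mod_cast a
    have b' : ((9 : ℝ) - 1) * dig 9 m i ≤ 9 ^ m - 1 := by exact_mod_cast b
    rw [abs_of_nonneg a']; linarith
  have h39 : (3 : ℝ) ^ m ≤ 9 ^ m := pow_le_pow_left₀ (by norm_num) (by norm_num) m
  have h3 : ∀ i : ℕ, |(dig 3 m i : ℝ) / 4| ≤ 9 ^ m / 8 := by
    intro i
    obtain ⟨a, b⟩ := dig_bound 3 (by norm_num) m i
    have a' : (0 : ℝ) ≤ dig 3 m i := by exact_mod_cast a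
    have b' : ((3 : ℝ) - 1) * dig 3 m i ≤ 3 ^ m - 1 := by exact_mod_cast b
    rw [abs_of_nonneg (by positivity)]; linarith
  simp only [s1, s2, pt, Matrix.cons_val]
  linarith [h9 (j 0), h9 (j 1), h9 (j 2), h9 (j 3), h3 (j 0), h3 (j 1), h3 (j 2), h3 (j 3)]

lemma pt_sep (m : ℕ) (j j' : Fin 4 → Fin (2 ^ m)) (h : j ≠ j') :
    1 / 200 ≤ distInt (NN (pt m j - pt m j')) := by
  set k : ℤ := |dig 9 m (j 0) - dig 9 m (j' 0)| + |dig 9 m (j 1) - dig 9 m (j' 1)|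
    + |dig 9 m (j 2) - dig 9 m (j' 2)| + |dig 9 m (j 3) - dig 9 m (j' 3)| with hk
  have hk1 : 1 ≤ k := by
    obtain ⟨i, hi⟩ := Function.ne_iff.mp h
    have := (dig_inv m (j i) (j' i) (j i).2 (j' i).2 (fun e => hi (Fin.ext e))).1
    have a0 := abs_nonneg (dig 9 m (j 0) - dig 9 m (j' 0))
    have a1 := abs_nonneg (dig 9 m (j 1) - dig 9 m (j' 1))
    have a2 := abs_nonneg (dig 9 m (j 2) - dig 9 m (j' 2))
    have a3 := abs_nonneg (dig 9 m (j 3) - dig 9 m (j' 3))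
    fin_cases i <;> simp only [Fin.zero_eta, Fin.mk_one, Fin.reduceFinMk] at this <;> linarith
  have hk1' : (1 : ℝ) ≤ k := by exact_mod_cast hk1
  have e1 : s1 (pt m j - pt m j') = k := by
    simp only [s1, pt, Pi.sub_apply, Matrix.cons_val, hk]
    push_cast; ring
  have hkR : (k : ℝ) = |(dig 9 m (j 0) : ℝ) - dig 9 m (j' 0)| + |(dig 9 m (j 1) : ℝ) - dig 9 m (j' 1)|
    + |(dig 9 m (j 2) : ℝ) - dig 9 m (j' 2)| + |(dig 9 m (j 3) : ℝ) - dig 9 m (j' 3)| := by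
    rw [hk]; push_cast; ring
  have q : ∀ a b : ℝ, |a / 4 - b / 4| = |a - b| / 4 := by
    intro a b
    rw [← sub_div, abs_div]; norm_num
  have e2 : s2 (pt m j - pt m j') = (|(dig 3 m (j 0) : ℝ) - dig 3 m (j' 0)|
      + |(dig 3 m (j 1) : ℝ) - dig 3 m (j' 1)|
      + |(dig 3 m (j 2) : ℝ) - dig 3 m (j' 2)| + |(dig 3 m (j 3) : ℝ) - dig 3 m (j' 3)|) / 4 := by
    simp only [s2, pt, Pi.sub_apply, Matrix.cons_val, q]
    ring
  obtain ⟨c0, d0⟩ := dig_cmp m (j 0) (j' 0) (j 0).2 (j' 0).2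
  obtain ⟨c1, d1⟩ := dig_cmp m (j 1) (j' 1) (j 1).2 (j' 1).2
  obtain ⟨c2, d2⟩ := dig_cmp m (j 2) (j' 2) (j 2).2 (j' 2).2
  obtain ⟨c3, d3⟩ := dig_cmp m (j 3) (j' 3) (j 3).2 (j' 3).2
  have a0 := abs_nonneg ((dig 3 m (j 0) : ℝ) - dig 3 m (j' 0))
  have a1 := abs_nonneg ((dig 3 m (j 1) : ℝ) - dig 3 m (j' 1))
  have a2 := abs_nonneg ((dig 3 m (j 2) : ℝ) - dig 3 m (j' 2))
  have a3 := abs_nonneg ((dig 3 m (j 3) : ℝ) - dig 3 m (j' 3))
  generalize |(dig 3 m (j 0) : ℝ) - dig 3 m (j' 0)| = b0 at *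
  generalize |(dig 3 m (j 1) : ℝ) - dig 3 m (j' 1)| = b1 at *
  generalize |(dig 3 m (j 2) : ℝ) - dig 3 m (j' 2)| = b2 at *
  generalize |(dig 3 m (j 3) : ℝ) - dig 3 m (j' 3)| = b3 at *
  have lo : (k : ℝ) / 72 ≤ s2 (pt m j - pt m j') ^ 2 := by
    rw [e2]
    nlinarith [mul_nonneg a0 a1, mul_nonneg a0 a2, mul_nonneg a0 a3, mul_nonneg a1 a2,
      mul_nonneg a1 a3, mul_nonneg a2 a3]
  have hi : s2 (pt m j - pt m j') ^ 2 ≤ k := by
    rw [e2]
    nlinarith [sq_nonneg (b0 - b1), sq_nonneg (b0 - b2), sq_nonneg (b0 - b3), sq_nonneg (b1 - b2),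
      sq_nonneg (b1 - b3), sq_nonneg (b2 - b3)]
  have l1 : (k : ℝ) + 1 / 200 ≤ NN (pt m j - pt m j') := by
    apply Real.le_sqrt_of_sq_le
    rw [e1]; nlinarith
  have l2 : NN (pt m j - pt m j') ≤ (k : ℝ) + 1 / 2 := by
    refine Real.sqrt_le_iff.mpr ⟨by positivity, ?_⟩
    rw [e1]; nlinarith
  unfold distInt
  generalize round (NN (pt m j - pt m j')) = z
  rcases le_or_gt z k with hz | hz
  · have : (z : ℝ) ≤ k := by exact_mod_cast hz
    exact le_abs.mpr (Or.inl (by linarith))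
  · have : (k : ℝ) + 1 ≤ z := by exact_mod_cast hz
    exact le_abs.mpr (Or.inr (by linarith))

lemma lower (m : ℕ) (X : ℝ) (hX : 9 ^ m ≤ X) : 16 ^ m ≤ maxAvoid NN X (1 / 200) := by
  apply le_csSup (bdd X (1 / 200) (by norm_num))
  have hc : Fintype.card (Fin 4 → Fin (2 ^ m)) = 16 ^ m := by
    simp only [Fintype.card_fun, Fintype.card_fin]
    rw [← pow_mul, mul_comm, pow_mul]; norm_num
  let e := (Fintype.equivFinOfCardEq hc).symm
  refine ⟨0, fun i => pt m (e i), fun i => (pt_le m _).trans hX, fun i j hij => ?_⟩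
  exact pt_sep m _ _ (fun h => hij (e.injective h))

/-- There are a dimension `d`, a `δ ∈ (0,1/2)` and a norm `N` on `ℝ^d` with
`N_N(X,δ) / X → ∞`. -/
theorem result : ∃ (d : ℕ) (δ : ℝ) (N : (Fin d → ℝ) → ℝ), 1 ≤ d ∧ 0 < δ ∧ δ < 1 / 2 ∧ IsNorm N ∧
    Tendsto (fun X : ℝ => (maxAvoid N X δ : ℝ) / X) atTop atTop := by
  refine ⟨8, 1 / 200, NN, by norm_num, by norm_num, by norm_num, isNorm_NN, ?_⟩
  rw [tendsto_atTop_atTop]
  intro C
  obtain ⟨m0, hm0⟩ := pow_unbounded_of_one_lt (9 * C) (show (1 : ℝ) < 16 / 9 by norm_num)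
  refine ⟨9 ^ m0, fun X hX => ?_⟩
  have h1 : (1 : ℝ) ≤ X := (one_le_pow₀ (by norm_num)).trans hX
  obtain ⟨m, hm1, hm2⟩ := exists_nat_pow_near h1 (show (1 : ℝ) < 9 by norm_num)
  have hm : m0 ≤ m := by
    have : (9 : ℝ) ^ m0 < 9 ^ (m + 1) := hX.trans_lt hm2
    have := (pow_lt_pow_iff_right₀ (show (1 : ℝ) < 9 by norm_num)).mp this
    omega
  have hl : ((16 : ℝ)) ^ m ≤ maxAvoid NN X (1 / 200) := by exact_mod_cast lower m X hm1
  have h2 : ((16 : ℝ) / 9) ^ m0 ≤ (16 / 9) ^ m := pow_le_pow_right₀ (by norm_num) hm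
  have h3 : (9 * C) * 9 ^ m ≤ (16 : ℝ) ^ m := by
    have := (hm0.le.trans h2)
    rwa [div_pow, le_div_iff₀ (by positivity)] at this
  rw [le_div_iff₀ (by linarith)]
  rcases le_or_gt C 0 with hC | hC
  · have : (0 : ℝ) ≤ maxAvoid NN X (1 / 200) := Nat.cast_nonneg _
    nlinarith
  · rw [pow_succ] at hm2
    nlinarith

end Pool.Agent.Results.MP_af7c6a_co.Superlinear
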